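import Mathlib
import Pool.Agent.H670MX.Final

set_option autoImplicit false

/-! # The exceptional set of the Möbius exponential sum

For `0 < δ ≤ 1/2` the set of the `x` for which the Möbius exponential sum of length `R` at `x` is not
`O(R ^ (1/2 + δ))` has Hausdorff dimension at most `1 - 2 δ`. -/

open Filter Asymptotics

namespace Pool.Agent.Results.MP_b6b996_nt.ExceptionalSet

/-- `F R x = ∑_{n=1}^R μ(n) e^{2πinx}` -/
noncomputable def F (R : ℕ) (x : ℝ) : ℂ :=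
  ∑ n ∈ Finset.Icc 1 R, (ArithmeticFunction.moebius n : ℂ) *
    Complex.exp (2 * Real.pi * Complex.I * n * x)

/-! ### proofs -/

open Pool.Agent.H670MX in
theorem F_eq (R : ℕ) (x : ℝ) :
    F R x = FF (fun n => (ArithmeticFunction.moebius n : ℂ)) (R + 1) x := by
  unfold F FF
  rw [Finset.range_eq_Ico, Finset.sum_eq_sum_Ico_succ_bot (Nat.succ_pos R)]
  simp only [ArithmeticFunction.moebius, ArithmeticFunction.map_zero, Int.cast_zero, zero_mul,
    zero_add]
  refine Finset.sum_congr ?_ fun n _ => ?_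
  · ext n
    simp only [Finset.mem_Icc, Finset.mem_Ico]
    omega
  · congr 1
    unfold Pool.Agent.Helper112.ee
    congr 1
    push_cast
    ring

theorem pow_step {δ : ℝ} (hδ : 0 < δ) (hδ2 : δ ≤ 1 / 2) {R : ℕ} (hR : 1 ≤ R) :
    (((R + 1 : ℕ) : ℝ)) ^ (1 / 2 + δ) ≤ 2 * (R : ℝ) ^ (1 / 2 + δ) := by
  have hR1 : (1 : ℝ) ≤ R := by exact_mod_cast hR
  have h1 : (((R + 1 : ℕ) : ℝ)) ≤ 2 * R := by
    push_cast
    linarith
  calc (((R + 1 : ℕ) : ℝ)) ^ (1 / 2 + δ) ≤ (2 * (R : ℝ)) ^ (1 / 2 + δ) :=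
        Real.rpow_le_rpow (by positivity) h1 (by linarith)
    _ = 2 ^ (1 / 2 + δ) * (R : ℝ) ^ (1 / 2 + δ) :=
        Real.mul_rpow (by norm_num) (by positivity)
    _ ≤ 2 * (R : ℝ) ^ (1 / 2 + δ) := by
        refine mul_le_mul_of_nonneg_right ?_ (by positivity)
        calc (2 : ℝ) ^ (1 / 2 + δ) ≤ 2 ^ (1 : ℝ) :=
              Real.rpow_le_rpow_of_exponent_le (by norm_num) (by linarith)
          _ = 2 := Real.rpow_one 2

/-- The exceptional set for the exponent `1/2 + δ` has Hausdorff dimension at most `1 - 2 δ`. -/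
theorem result (δ : ℝ) (hδ : 0 < δ) (hδ2 : δ ≤ 1 / 2) :
    dimH {x : ℝ | x ∈ Set.Icc (0 : ℝ) 1 ∧
      ¬ (fun R : ℕ => F R x) =O[atTop] fun R : ℕ => (R : ℝ) ^ (1 / 2 + δ)} ≤
      ENNReal.ofReal (1 - 2 * δ) := by
  have ha : ∀ n : ℕ, ‖(ArithmeticFunction.moebius n : ℂ)‖ ≤ 1 := by
    intro n
    have h := ArithmeticFunction.abs_moebius_le_one (n := n)
    rw [Complex.norm_intCast]
    exact_mod_cast h
  have h := Pool.Agent.H670MX.mx_main _ ha δ hδ.le hδ2
  set E : Set ℝ := {x : ℝ | 0 ≤ x ∧ x < 1 ∧ ∃ᶠ R : ℕ in atTop, (R : ℝ) ^ (1 / 2 + δ) <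
    ‖Pool.Agent.H670MX.FF (fun n => (ArithmeticFunction.moebius n : ℂ)) R x‖} with hE
  have hsub : {x : ℝ | x ∈ Set.Icc (0 : ℝ) 1 ∧
      ¬ (fun R : ℕ => F R x) =O[atTop] fun R : ℕ => (R : ℝ) ^ (1 / 2 + δ)} ⊆ E ∪ {1} := by
    rintro x ⟨⟨h0, h1⟩, hx⟩
    rcases eq_or_lt_of_le h1 with h1 | h1
    · exact Or.inr h1
    · refine Or.inl ⟨h0, h1, ?_⟩
      rw [Filter.frequently_atTop]
      intro K
      by_contra hcon
      push Not at hcon
      apply hx
      rw [Asymptotics.isBigO_iff]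
      refine ⟨2, ?_⟩
      filter_upwards [eventually_ge_atTop (max K 1)] with R hR
      have hRK : K ≤ R := le_trans (le_max_left _ _) hR
      have hR1 : 1 ≤ R := le_trans (le_max_right _ _) hR
      rw [F_eq]
      have h2 := hcon (R + 1) (by omega)
      have h3 := pow_step hδ hδ2 hR1
      have h4 : ‖(R : ℝ) ^ (1 / 2 + δ)‖ = (R : ℝ) ^ (1 / 2 + δ) :=
        Real.norm_of_nonneg (by positivity)
      rw [h4]
      exact h2.trans h3
  refine (dimH_mono hsub).trans ?_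
  rw [dimH_union, dimH_singleton]
  exact max_le h (by simp)

end Pool.Agent.Results.MP_b6b996_nt.ExceptionalSet
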